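import Pool.Agent.R559.NP.Win
import Pool.Agent.Results.MP_7ecdd4_nt.FewExceptions

/-!
# The strong `n`-conjecture for the tuples with a divisor of the product in a short window

Let `v ≥ 1` be any sequence with exponent of convergence at most `τ` (for `v_N = N ^ c` this is
`1 / c`, for `v_N = b ^ N` it is `0`), `θ < 1` and `n ≥ 4`. For all `α > 0` outside a set of
Hausdorff dimension at most `τ / (1 - θ)`, so outside a set of dimension zero for `v_N = b ^ N`, there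
is for every `A` an `M` such that EVERY tuple `x` of nonzero pairwise coprime integers with sum zero,
for which the product `x_1 ⋯ x_n` is divisible by an integer `m` from one of the windows
`|m - α v_N| ≤ v_N ^ θ` and for which `max |x_j| ≤ m ^ A`, satisfies
`max |x_j| ≤ rad (x_1 ⋯ x_n) ^ M`. For a given `M ≥ 10 / (3 n - 2)` this holds in all but finitely
many windows for all `α` outside a set of dimension at most
`(A (3 n - 5) / ((3 n - 2) M) + τ) / (1 - θ)`.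
-/

set_option autoImplicit false

namespace Pool.Agent.Results.MP_7ecdd4_nt.DivisorsInWindows

/-- an admissible tuple: non-zero pairwise coprime integers with sum zero -/
def Admissible {n : ℕ} (x : Fin n → ℤ) : Prop :=
  (∀ i, x i ≠ 0) ∧ (∀ i j, i ≠ j → Int.gcd (x i) (x j) = 1) ∧ ∑ i, x i = 0

/-- The radical of `x_1 ⋯ x_n`: the product of the primes dividing it. -/
def rad {n : ℕ} (x : Fin n → ℤ) : ℕ := ∏ p ∈ (∏ i, x i).natAbs.primeFactors, p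

/-- The height `max |x_j|`. -/
noncomputable def height {n : ℕ} (x : Fin n → ℤ) : ℝ := ⨆ i, ((|x i| : ℤ) : ℝ)

/-- the exponent of convergence of the sequence `v` is at most `τ` -/
def ExpLe (v : ℕ → ℝ) (τ : ℝ) : Prop := ∀ t : ℝ, τ < t → Summable (fun N : ℕ => (v N) ^ (-t))

/-- all admissible tuples `x` with `m ∣ x_1 ⋯ x_n` and `max |x_j| ≤ m ^ A` satisfy
`max |x_j| ≤ rad (x_1 ⋯ x_n) ^ M` -/
def Good (n : ℕ) (A M : ℝ) (m : ℕ) : Prop :=
  ∀ x : Fin n → ℤ, Admissible x → (m : ℤ) ∣ ∏ i, x i → height x ≤ (m : ℝ) ^ A →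
    height x ≤ (rad x : ℝ) ^ M

variable {n : ℕ}

lemma box_finite (n : ℕ) (X : ℤ) : {x : Fin n → ℤ | ∀ i, |x i| ≤ X}.Finite := by
  refine (Set.finite_Icc (fun _ : Fin n => -X) (fun _ : Fin n => X)).subset ?_
  intro x hx
  rw [Set.mem_Icc]
  exact ⟨fun i => (abs_le.1 (hx i)).1, fun i => (abs_le.1 (hx i)).2⟩

lemma κ_nonneg (hn : 4 ≤ n) : 0 ≤ (3 * (n : ℝ) - 5) / (3 * (n : ℝ) - 2) := by
  have h4 : (4 : ℝ) ≤ n := by exact_mod_cast hn
  exact div_nonneg (by linarith) (by linarith)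

lemma hcount (hn : 4 ≤ n) {M : ℝ} (hM : 10 / (3 * (n : ℝ) - 2) ≤ M) (δ : ℝ) (hδ : 0 < δ) :
    ∃ C : ℝ, ∀ B : ℝ, 1 ≤ B →
      {x : Fin n → ℤ | (Admissible x ∧ ¬ height x ≤ (rad x : ℝ) ^ M) ∧ height x ≤ B}.Finite ∧
      (({x : Fin n → ℤ |
        (Admissible x ∧ ¬ height x ≤ (rad x : ℝ) ^ M) ∧ height x ≤ B}.ncard : ℕ) : ℝ) ≤
        C * B ^ ((3 * (n : ℝ) - 5) / (3 * (n : ℝ) - 2) / M + δ) := by
  have h4 : (4 : ℝ) ≤ n := by exact_mod_cast hn
  have hn0 : 0 < n := by omega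
  have hM0 : 0 < M := lt_of_lt_of_le (div_pos (by norm_num) (by linarith)) hM
  obtain ⟨C, hC⟩ := FewExceptions.result n hn M hM δ hδ
  refine ⟨|C|, fun B hB => ?_⟩
  have hX : 1 ≤ ⌊B⌋₊ := Nat.le_floor (by exact_mod_cast hB)
  have hset : {x : Fin n → ℤ | (Admissible x ∧ ¬ height x ≤ (rad x : ℝ) ^ M) ∧ height x ≤ B} ⊆
      {x : Fin n → ℤ | FewExceptions.Admissible x ∧ (∀ i, |x i| ≤ ((⌊B⌋₊ : ℕ) : ℤ)) ∧
        ¬ FewExceptions.Holds M x} := by
    rintro x ⟨⟨h1, h2⟩, h3⟩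
    refine ⟨h1, fun i => ?_, fun hcon => h2 ?_⟩
    · have h5 := (Pool.Agent.R559.NP.height_le_iff hn0 x B).1 h3 i
      have h6 : (((x i).natAbs : ℕ) : ℝ) ≤ B := by
        rw [Nat.cast_natAbs]
        exact h5
      have h7 : (x i).natAbs ≤ ⌊B⌋₊ := Nat.le_floor h6
      rw [Int.abs_eq_natAbs]
      exact_mod_cast h7
    · refine (Pool.Agent.R559.NP.height_le_iff hn0 x _).2 fun i => ?_
      have := hcon i
      rw [← Int.cast_abs] at this
      refine this.trans (le_of_eq ?_)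
      rfl
  have hfin : {x : Fin n → ℤ | FewExceptions.Admissible x ∧
      (∀ i, |x i| ≤ ((⌊B⌋₊ : ℕ) : ℤ)) ∧ ¬ FewExceptions.Holds M x}.Finite :=
    (box_finite n _).subset fun x hx => hx.2.1
  refine ⟨hfin.subset hset, ?_⟩
  have h8 : ((({x : Fin n → ℤ | (Admissible x ∧ ¬ height x ≤ (rad x : ℝ) ^ M) ∧
      height x ≤ B}.ncard : ℕ) : ℝ)) ≤ (FewExceptions.exceptions n M ⌊B⌋₊ : ℝ) := by
    unfold FewExceptions.exceptions
    exact_mod_cast Set.ncard_le_ncard hset hfin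
  have h9 : (0 : ℝ) ≤ (3 * (n : ℝ) - 5) / ((3 * (n : ℝ) - 2) * M) + δ := by
    have : (0 : ℝ) ≤ (3 * (n : ℝ) - 5) / ((3 * (n : ℝ) - 2) * M) :=
      div_nonneg (by linarith) (mul_nonneg (by linarith) hM0.le)
    linarith
  rw [div_div]
  calc ((({x : Fin n → ℤ | (Admissible x ∧ ¬ height x ≤ (rad x : ℝ) ^ M) ∧
        height x ≤ B}.ncard : ℕ) : ℝ))
      ≤ C * ((⌊B⌋₊ : ℕ) : ℝ) ^ ((3 * (n : ℝ) - 5) / ((3 * (n : ℝ) - 2) * M) + δ) :=
        h8.trans (hC _ hX)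
    _ ≤ |C| * ((⌊B⌋₊ : ℕ) : ℝ) ^ ((3 * (n : ℝ) - 5) / ((3 * (n : ℝ) - 2) * M) + δ) :=
        mul_le_mul_of_nonneg_right (le_abs_self C) (by positivity)
    _ ≤ |C| * B ^ ((3 * (n : ℝ) - 5) / ((3 * (n : ℝ) - 2) * M) + δ) := by
        refine mul_le_mul_of_nonneg_left ?_ (abs_nonneg C)
        exact Real.rpow_le_rpow (Nat.cast_nonneg _) (Nat.floor_le (by linarith)) h9

/-- **Theorem.** Let `n ≥ 4`. (1) For all sequences `v ≥ 1` of exponent of convergence at most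
`τ ≥ 0` and all `θ < 1` there is a set `E` of Hausdorff dimension at most `τ / (1 - θ)` such that for
each `α > 0` outside `E` and each `A` there is `M` such that for all the integers `m` with
`|m - α v_N| ≤ v_N ^ θ` for some `N` every tuple `x` of nonzero pairwise coprime integers with sum
zero, `m ∣ x_1 ⋯ x_n` and `max |x_j| ≤ m ^ A` satisfies `max |x_j| ≤ rad (x_1 ⋯ x_n) ^ M`. (2) For all
`A > 0` and `M ≥ 10 / (3 n - 2)` there is a set `E` of dimension at most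
`(A (3 n - 5) / ((3 n - 2) M) + τ) / (1 - θ)` such that for each `α > 0` outside `E` and all but
finitely many `N` all the integers `m` with `|m - α v_N| ≤ v_N ^ θ` are `Good n A M`. (3) The
sequences `v_N = (N + 1) ^ c` and `v_N = b ^ N` have exponent of convergence at most `1 / c` and
`0`. -/
theorem result (n : ℕ) (hn : 4 ≤ n) :
    (∀ (v : ℕ → ℝ) (τ θ : ℝ), (∀ N, 1 ≤ v N) → 0 ≤ τ → ExpLe v τ → θ < 1 →
      ∃ E : Set ℝ, dimH E ≤ ENNReal.ofReal (τ / (1 - θ)) ∧ ∀ α : ℝ, 0 < α → α ∉ E → ∀ A : ℝ,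
        ∃ M : ℝ, ∀ N m : ℕ, |(m : ℝ) - α * v N| ≤ (v N) ^ θ → Good n A M m) ∧
    (∀ (v : ℕ → ℝ) (τ A θ M : ℝ), (∀ N, 1 ≤ v N) → 0 ≤ τ → ExpLe v τ → 0 < A → θ < 1 →
      10 / (3 * (n : ℝ) - 2) ≤ M →
      ∃ E : Set ℝ, dimH E ≤
          ENNReal.ofReal ((A * ((3 * (n : ℝ) - 5) / (3 * (n : ℝ) - 2) / M) + τ) / (1 - θ)) ∧
        ∀ α : ℝ, 0 < α → α ∉ E → ∃ N₀ : ℕ, ∀ N : ℕ, N₀ ≤ N → ∀ m : ℕ,
          |(m : ℝ) - α * v N| ≤ (v N) ^ θ → Good n A M m) ∧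
    (∀ c : ℝ, 0 < c → ExpLe (fun N : ℕ => ((N : ℝ) + 1) ^ c) (1 / c)) ∧
    (∀ b : ℝ, 1 < b → ExpLe (fun N : ℕ => b ^ N) 0) := by
  have hn0 : 0 < n := by omega
  have h4 : (4 : ℝ) ≤ n := by exact_mod_cast hn
  refine ⟨fun v τ θ hv hτ hE hθ => ?_, fun v τ A θ M hv hτ hE hA hθ hM => ?_,
    fun c hc => Pool.Agent.Y854.GM.expLe_pow c hc, fun b hb => Pool.Agent.Y854.GM.expLe_geom b hb⟩
  · have h10 : (10 : ℝ) / (3 * (n : ℝ) - 2) ≤ 1 := by
      rw [div_le_one (by linarith)]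
      linarith
    obtain ⟨E, h1, h2⟩ := Pool.Agent.R559.NP.win_all (n := n) hn0
      (Adm := fun x : Fin n → ℤ => Admissible x)
      (fun x hx => hx.1) (κ_nonneg hn)
      (fun M hM δ hδ => hcount hn (h10.trans hM) δ hδ) hv hτ hE hθ
    refine ⟨E, h1, fun α hα hαE A => ?_⟩
    obtain ⟨M, hM⟩ := h2 α hα hαE A
    exact ⟨M, fun N m hm x hx hd hh => hM N m hm x hx hd hh⟩
  · have hM0 : 0 < M := lt_of_lt_of_le (div_pos (by norm_num) (by linarith)) hM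
    obtain ⟨E, h1, h2⟩ := Pool.Agent.R559.NP.win_fixed (n := n)
      (Bad := fun x : Fin n → ℤ => Admissible x ∧ ¬ height x ≤ (rad x : ℝ) ^ M)
      (fun x hx => hx.1.1) (div_nonneg (κ_nonneg hn) hM0.le) hA
      (fun δ hδ => hcount hn hM δ hδ) hv hτ hE hθ
    refine ⟨E, h1, fun α hα hαE => ?_⟩
    obtain ⟨N₀, hN⟩ := h2 α hα hαE
    refine ⟨N₀, fun N hN1 m hm x hx hd hh => ?_⟩
    by_contra hcon
    exact hN N hN1 m hm x ⟨hx, hcon⟩ hh hd

end Pool.Agent.Results.MP_7ecdd4_nt.DivisorsInWindows
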