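import Mathlib
import Pool.Agent.R343.LU5

set_option autoImplicit false

/-!
# The strong n-conjecture for tuples with compressible digits

A word of letters is cut into `z` phrases (`LZ a N z`, Lempel and Ziv) if each phrase is a single
letter, or a (possibly empty) copy of a block that begins further to the left; the block may
overlap the phrase. For instance the word `u v ^ m w` has a number of phrases which does not depend
on `m`.

1. Let `N`, `p`, a map `τ` from `{1, …, p}` to `{1, …, N}`, exponents `e i ≥ 1`, bases `b i ≥ 2`, `z`, a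
   finitely generated group `Γ` of rational numbers and `ε > 0` be given. There is `K > 0` such that
   for all pairwise coprime nonzero integers `A 1 + … + A N = 0` (no condition on subsums) of the form
   `A σ = w σ * ∏_{τ i = σ} x i ^ (e i)`, `w σ ∈ Γ`, where the digits of each `x i` in base `b i`, read
   upwards or downwards, form a word with `z` phrases,

   `|A σ| ^ (1 - ε) ≤ K ∏_i |x i| ^ min (e i, N - 2)` for all `σ`.

   There is no restriction on the lengths of the phrases and of their periods.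

2. The same if each `x i` is a sum of `r` products `g y`, `g ∈ Γ`, `y` the value in base `b i j` of a
   word with `z` phrases of integral letters of absolute value at most `B` and of length `L`,
   `L log b ≤ M (1 + ∑ log |A σ|)`.

The proof: if no period of a phrase has a size between `δ' L` and `δ L`, then a product `D` of
numbers `b ^ π - 1` with `log D` at most a small multiple of `L` makes all `D x i` sums of boundedly
many powers of the bases with small coefficients; one of finitely many scales works. The inequality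
for sums of `S`-units (SparseStrongN) is extended to such numbers with a common denominator, which
does not change the terms `A σ` (they remain coprime).
-/

namespace Pool.Agent.Results.MP_7ecdd4_nt.LempelZivTuples

open Finset Pool.Agent.R343.LP Pool.Agent.R343.LT

/-- The result: (1) digits, (2) sums of products of elements of `Γ` and values of words. -/
theorem result :
    (∀ (p N : ℕ) (τ : Fin p → Fin N) (e : Fin p → ℕ), (∀ i, 1 ≤ e i) →
      ∀ (Γ : Subgroup ℚˣ), Γ.FG → ∀ b : Fin p → ℕ, (∀ i, 2 ≤ b i) → ∀ (z : ℕ) (ε : ℝ), 0 < ε →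
      ∃ K : ℝ, 0 < K ∧
        ∀ (x : Fin p → ℤ) (w A : Fin N → ℤ), (∀ σ, ∃ g ∈ Γ, (w σ : ℚ) = (g : ℚ)) →
          (∀ σ, A σ = w σ * ∏ i with τ i = σ, x i ^ (e i)) → (∀ σ, A σ ≠ 0) →
          ∑ σ, A σ = 0 → (∀ σ σ', σ ≠ σ' → IsCoprime (A σ) (A σ')) →
          (∀ i, LZDigits (b i) z (x i)) →
          ∀ σ, |(A σ : ℝ)| ^ (1 - ε) ≤ K * ∏ i, |(x i : ℝ)| ^ (min (e i) (N - 2))) ∧
    (∀ (p r N : ℕ) (τ : Fin p → Fin N) (e : Fin p → ℕ), (∀ i, 1 ≤ e i) →
      ∀ (Γ : Subgroup ℚˣ), Γ.FG → ∀ b : Fin p → Fin r → ℕ, (∀ i j, 2 ≤ b i j) → ∀ (z : ℕ) (B : ℤ),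
      0 ≤ B → ∀ M ε : ℝ, 0 ≤ M → 0 < ε →
      ∃ K : ℝ, 0 < K ∧
        ∀ (x : Fin p → ℤ) (w A : Fin N → ℤ), (∀ σ, ∃ g ∈ Γ, (w σ : ℚ) = (g : ℚ)) →
          (∀ σ, A σ = w σ * ∏ i with τ i = σ, x i ^ (e i)) → (∀ σ, A σ ≠ 0) →
          ∑ σ, A σ = 0 → (∀ σ σ', σ ≠ σ' → IsCoprime (A σ) (A σ')) →
          (∀ i, CompR Γ (b i) z B (M * (1 + ∑ σ, Real.log (max 1 |(A σ : ℝ)|))) (x i)) →
          ∀ σ, |(A σ : ℝ)| ^ (1 - ε) ≤ K * ∏ i, |(x i : ℝ)| ^ (min (e i) (N - 2))) := by
  refine ⟨fun p N τ e he Γ hΓ b hb z ε hε => ?_, fun p r N τ e he Γ hΓ b hb z B hB M ε hM hε =>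
    ntStrongLZ p r N τ e he Γ hΓ b hb z B hB M ε hM hε⟩
  have hlb : ∀ i, 0 ≤ Real.log (b i) := fun i => Real.log_nonneg (by
    have : 1 ≤ b i := by have := hb i; omega
    exact_mod_cast this)
  obtain ⟨K, hK0, hK⟩ := ntStrongLZ p 1 N τ e he Γ hΓ (fun i _ => b i) (fun i _ => hb i) z
    ((∑ i, b i : ℕ) : ℤ) (Int.natCast_nonneg _) (1 + ∑ i, Real.log (b i)) ε
    (by have := Finset.sum_nonneg fun i (_ : i ∈ Finset.univ) => hlb i; linarith) hε
  exact ⟨K, hK0, fun x w A hw hA hA0 hsum hcop hx => hK x w A hw hA hA0 hsum hcop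
    (fun i => digits_comp he hb Γ hA hA0 hx i)⟩

end Pool.Agent.Results.MP_7ecdd4_nt.LempelZivTuples
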