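import Pool.Agent.R909.RandCong
import Pool.Agent.R479.DA.Lim
import Pool.Agent.Results.MP_7ecdd4_nt.FewExceptions

/-!
# The strong `n`-conjecture and random residues

Let `N j` be the norms of moduli with a convergent sum of the `N j ^ (-s)`, let `X j` be random
residues, each value of which has probability at most `C * N j ^ (-d)`, `s < d`, and let `φ j` be any
maps from the `n`-tuples of integers to the residues, `n ≥ 4`. Almost surely, for every `τ > 0` there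
is `M` such that all tuples `x` of nonzero pairwise coprime integers with sum zero (no condition on
the sub-sums) with `φ j x = X j` for some `j` with `(max |x_i|) ^ τ ≤ N j` satisfy
`max |x_i| ≤ rad (x_1 ⋯ x_n) ^ M`.
-/

set_option autoImplicit false

namespace Pool.Agent.Results.MP_7ecdd4_nt.RandomResidues

open Filter Topology MeasureTheory

/-- an admissible tuple: non-zero pairwise coprime integers with sum zero -/
def Admissible {n : ℕ} (x : Fin n → ℤ) : Prop :=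
  (∀ i, x i ≠ 0) ∧ (∀ i j, i ≠ j → Int.gcd (x i) (x j) = 1) ∧ ∑ i, x i = 0

/-- The radical of `x_1 ⋯ x_n`: the product of the primes dividing it. -/
def rad {n : ℕ} (x : Fin n → ℤ) : ℕ := (∏ i, x i).natAbs.primeFactors.prod id

/-- The height `max |x_j|`. -/
noncomputable def height {n : ℕ} (x : Fin n → ℤ) : ℝ := ⨆ i, ((|x i| : ℤ) : ℝ)

/-- the exponent `(3 n - 5) / (3 n - 2)` -/
noncomputable def κ (n : ℕ) : ℝ := (3 * (n : ℝ) - 5) / (3 * (n : ℝ) - 2)

section basic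

variable {n : ℕ} {x : Fin n → ℤ}

lemma abs_le_height (x : Fin n → ℤ) (i : Fin n) : ((|x i| : ℤ) : ℝ) ≤ height x :=
  le_ciSup (f := fun i => ((|x i| : ℤ) : ℝ)) (Set.finite_range _).bddAbove i

lemma height_le_iff (hn : 4 ≤ n) (x : Fin n → ℤ) (B : ℝ) :
    height x ≤ B ↔ ∀ i, ((|x i| : ℤ) : ℝ) ≤ B := by
  have : Nonempty (Fin n) := ⟨⟨0, by omega⟩⟩
  exact ⟨fun h i => (abs_le_height x i).trans h, fun h => ciSup_le h⟩

lemma Admissible.one_le_height (hn : 4 ≤ n) (hx : Admissible x) : 1 ≤ height x := by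
  have h1 : (1 : ℤ) ≤ |x ⟨0, by omega⟩| := Int.one_le_abs (hx.1 _)
  exact le_trans (by exact_mod_cast h1) (abs_le_height x ⟨0, by omega⟩)

lemma rad_pos (x : Fin n → ℤ) : 0 < rad x :=
  Finset.prod_pos fun _ hp => (Nat.prime_of_mem_primeFactors hp).pos

/-- a tuple with `rad x = 1` has height one -/
lemma height_le_one_of_rad (hn : 4 ≤ n) (hx : Admissible x) (hr : rad x < 2) : height x ≤ 1 := by
  rw [height_le_iff hn]
  intro i
  have h0 : (∏ i, x i).natAbs ≠ 0 := by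
    rw [Int.natAbs_ne_zero]
    exact Finset.prod_ne_zero_iff.2 fun i _ => hx.1 i
  have h1 : (∏ i, x i).natAbs = 1 := by
    by_contra hne
    obtain ⟨p, hp, hpd⟩ := Nat.exists_prime_and_dvd hne
    have hmem : p ∈ (∏ i, x i).natAbs.primeFactors := Nat.mem_primeFactors.2 ⟨hp, hpd, h0⟩
    have h2 : p ≤ rad x := Nat.le_of_dvd (rad_pos x) (Finset.dvd_prod_of_mem id hmem)
    have := hp.two_le
    omega
  have h2 : (x i).natAbs ∣ 1 := by
    rw [← h1]
    exact Int.natAbs_dvd_natAbs.2 (Finset.dvd_prod_of_mem _ (Finset.mem_univ i))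
  have h3 : (x i).natAbs = 1 := Nat.dvd_one.1 h2
  have h4 : |x i| = 1 := by
    rw [Int.abs_eq_natAbs, h3]
    rfl
  rw [h4]
  simp

end basic

section count

variable {n : ℕ}

/-- the exceptional tuples -/
def Bad (n : ℕ) (M : ℝ) (x : Fin n → ℤ) : Prop := Admissible x ∧ ¬ height x ≤ (rad x : ℝ) ^ M

/-- counting a set through the subtype -/
lemma count_subtype {T : Type} {H : T → ℝ} {Q : T → Prop} {B C : ℝ}
    (hfin : {x | Q x ∧ H x ≤ B}.Finite)
    (hK : (({x | Q x ∧ H x ≤ B}.ncard : ℕ) : ℝ) ≤ C) :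
    {i : {x // Q x} | H i.1 ≤ B}.Finite ∧
      (({i : {x // Q x} | H i.1 ≤ B}.ncard : ℕ) : ℝ) ≤ C := by
  have himg : Subtype.val '' {i : {x // Q x} | H i.1 ≤ B} = {x | Q x ∧ H x ≤ B} := by
    ext x
    simp only [Set.mem_image, Set.mem_ofPred_eq, Subtype.exists, exists_and_left, exists_prop,
      exists_eq_right_right]
    tauto
  have hinj : Set.InjOn Subtype.val {i : {x // Q x} | H i.1 ≤ B} :=
    Subtype.val_injective.injOn
  constructor
  · refine Set.Finite.of_finite_image ?_ hinj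
    rw [himg]
    exact hfin
  · rw [← hinj.ncard_image, himg]
    exact hK

lemma box_finite (n : ℕ) (X : ℤ) : {x : Fin n → ℤ | ∀ i, |x i| ≤ X}.Finite := by
  refine (Set.finite_Icc (fun _ : Fin n => -X) (fun _ : Fin n => X)).subset ?_
  intro x hx
  rw [Set.mem_Icc]
  exact ⟨fun i => (abs_le.1 (hx i)).1, fun i => (abs_le.1 (hx i)).2⟩

lemma κ_nonneg (hn : 4 ≤ n) : 0 ≤ κ n := by
  have h4 : (4 : ℝ) ≤ n := by exact_mod_cast hn
  unfold κ
  exact div_nonneg (by linarith) (by linarith)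

/-- the count of the exceptional tuples, for the lemmas on balls -/
lemma hcount (hn : 4 ≤ n) {M : ℝ} (hM : 10 / (3 * (n : ℝ) - 2) ≤ M) :
    ∀ ε : ℝ, 0 < ε → ∃ C : ℝ, ∀ B : ℝ, 1 ≤ B →
      {i : {x : Fin n → ℤ // Bad n M x} | height i.1 ≤ B}.Finite ∧
      (({i : {x : Fin n → ℤ // Bad n M x} | height i.1 ≤ B}.ncard : ℕ) : ℝ) ≤
        C * B ^ (κ n / M + ε) := by
  intro ε hε
  have h4 : (4 : ℝ) ≤ n := by exact_mod_cast hn
  have hM0 : 0 < M := lt_of_lt_of_le (div_pos (by norm_num) (by linarith)) hM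
  obtain ⟨C, hC⟩ := FewExceptions.result n hn M hM ε hε
  refine ⟨|C|, fun B hB => ?_⟩
  have hX : 1 ≤ ⌊B⌋₊ := Nat.le_floor (by exact_mod_cast hB)
  have hset : {x : Fin n → ℤ | Bad n M x ∧ height x ≤ B} ⊆
      {x : Fin n → ℤ | FewExceptions.Admissible x ∧ (∀ i, |x i| ≤ ((⌊B⌋₊ : ℕ) : ℤ)) ∧
        ¬ FewExceptions.Holds M x} := by
    rintro x ⟨⟨h1, h2⟩, h3⟩
    refine ⟨h1, fun i => ?_, fun hcon => h2 ?_⟩
    · have h5 := (height_le_iff hn x B).1 h3 i
      have h6 : (((x i).natAbs : ℕ) : ℝ) ≤ B := by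
        rw [Nat.cast_natAbs]
        exact h5
      have h7 : (x i).natAbs ≤ ⌊B⌋₊ := Nat.le_floor h6
      rw [Int.abs_eq_natAbs]
      exact_mod_cast h7
    · rw [height_le_iff hn]
      intro i
      have := hcon i
      rw [← Int.cast_abs] at this
      exact this
  have hfin : {x : Fin n → ℤ | FewExceptions.Admissible x ∧
      (∀ i, |x i| ≤ ((⌊B⌋₊ : ℕ) : ℤ)) ∧ ¬ FewExceptions.Holds M x}.Finite :=
    (box_finite n _).subset fun x hx => hx.2.1
  refine count_subtype (H := fun x : Fin n → ℤ => height x) (hfin.subset hset) ?_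
  have h8 : ((({x : Fin n → ℤ | Bad n M x ∧ height x ≤ B}.ncard : ℕ) : ℝ)) ≤
      (FewExceptions.exceptions n M ⌊B⌋₊ : ℝ) := by
    unfold FewExceptions.exceptions
    exact_mod_cast Set.ncard_le_ncard hset hfin
  have h9 : (0 : ℝ) ≤ (3 * (n : ℝ) - 5) / ((3 * (n : ℝ) - 2) * M) + ε := by
    have : (0 : ℝ) ≤ (3 * (n : ℝ) - 5) / ((3 * (n : ℝ) - 2) * M) :=
      div_nonneg (by linarith) (mul_nonneg (by linarith) hM0.le)
    linarith
  have h10 : κ n / M = (3 * (n : ℝ) - 5) / ((3 * (n : ℝ) - 2) * M) := by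
    unfold κ
    rw [div_div]
  rw [h10]
  calc ((({x : Fin n → ℤ | Bad n M x ∧ height x ≤ B}.ncard : ℕ) : ℝ))
      ≤ C * ((⌊B⌋₊ : ℕ) : ℝ) ^ ((3 * (n : ℝ) - 5) / ((3 * (n : ℝ) - 2) * M) + ε) :=
        h8.trans (hC _ hX)
    _ ≤ |C| * ((⌊B⌋₊ : ℕ) : ℝ) ^ ((3 * (n : ℝ) - 5) / ((3 * (n : ℝ) - 2) * M) + ε) :=
        mul_le_mul_of_nonneg_right (le_abs_self C) (by positivity)
    _ ≤ |C| * B ^ ((3 * (n : ℝ) - 5) / ((3 * (n : ℝ) - 2) * M) + ε) := by
        refine mul_le_mul_of_nonneg_left ?_ (abs_nonneg C)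
        exact Real.rpow_le_rpow (Nat.cast_nonneg _) (Nat.floor_le (by linarith)) h9

end count

section finite

variable {n : ℕ}

/-- any finite set of tuples satisfies the inequality with a suitable exponent -/
lemma good_finite (hn : 4 ≤ n) {S : Set (Fin n → ℤ)} (hS : S.Finite)
    (hadm : ∀ x ∈ S, Admissible x) :
    ∃ M : ℝ, 0 ≤ M ∧ ∀ x ∈ S, height x ≤ (rad x : ℝ) ^ M := by
  obtain ⟨B, hB⟩ : ∃ B : ℝ, ∀ x ∈ S, height x ≤ B := by
    obtain ⟨B, hB⟩ := (hS.image height).bddAbove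
    exact ⟨B, fun x hx => hB ⟨x, hx, rfl⟩⟩
  obtain ⟨M, hM⟩ := pow_unbounded_of_one_lt B (one_lt_two : (1 : ℝ) < 2)
  refine ⟨M, Nat.cast_nonneg M, fun x hx => ?_⟩
  by_cases hr : rad x < 2
  · refine (height_le_one_of_rad hn (hadm x hx) hr).trans ?_
    have h1 : (1 : ℝ) ≤ (rad x : ℝ) := by exact_mod_cast rad_pos x
    exact Real.one_le_rpow h1 (Nat.cast_nonneg M)
  · have h2 : (2 : ℝ) ≤ (rad x : ℝ) := by
      have : 2 ≤ rad x := by omega
      exact_mod_cast this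
    calc height x ≤ B := hB x hx
      _ ≤ 2 ^ M := hM.le
      _ = (2 : ℝ) ^ (M : ℝ) := (Real.rpow_natCast _ _).symm
      _ ≤ (rad x : ℝ) ^ (M : ℝ) := Real.rpow_le_rpow (by norm_num) h2 (Nat.cast_nonneg M)

lemma good_mono {x : Fin n → ℤ} {M M' : ℝ} (h : height x ≤ (rad x : ℝ) ^ M) (hM : M ≤ M') :
    height x ≤ (rad x : ℝ) ^ M' := by
  have h1 : (1 : ℝ) ≤ (rad x : ℝ) := by exact_mod_cast rad_pos x
  exact h.trans (Real.rpow_le_rpow_of_exponent_le h1 hM)

end finite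

section main

variable {n : ℕ} {J Ω : Type} [MeasurableSpace Ω] {P : Measure Ω} {Rs : J → Type}
  {N : J → ℝ} {X : ∀ j : J, Ω → Rs j} {φ : ∀ j : J, (Fin n → ℤ) → Rs j}

lemma summable_bad (hn : 4 ≤ n) {M p : ℝ} (hM : 10 / (3 * (n : ℝ) - 2) ≤ M) (hp : κ n / M < p) :
    Summable fun x : {x : Fin n → ℤ // Bad n M x} => height x.1 ^ (-p) := by
  have h4 : (4 : ℝ) ≤ n := by exact_mod_cast hn
  have hM0 : 0 < M := lt_of_lt_of_le (div_pos (by norm_num) (by linarith)) hM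
  have h0 : 0 ≤ κ n / M := div_nonneg (κ_nonneg hn) hM0.le
  obtain ⟨C, hC⟩ := hcount hn hM ((p - κ n / M) / 2) (by linarith)
  exact Pool.Agent.R479.DA.summable_heights
    (fun x : {x : Fin n → ℤ // Bad n M x} => height x.1)
    (fun x => x.2.1.one_le_height hn) (s := κ n / M + (p - κ n / M) / 2) (p := p) (C := C)
    (by linarith) (by linarith) hC

theorem part_two (hn : 4 ≤ n) (h0 : ∀ j, 1 ≤ N j) {s d C : ℝ} (hs : s ≤ d)
    (hN : Summable fun j => N j ^ (-s))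
    (hX : ∀ j, ∀ r : Rs j, P {ω | X j ω = r} ≤ ENNReal.ofReal (C * N j ^ (-d)))
    {M τ η : ℝ} (hM : 10 / (3 * (n : ℝ) - 2) ≤ M) (hη : 0 ≤ η)
    (h : κ n / M + η < (d - s) * τ) :
    (∀ᵐ ω ∂P, {i : J × (Fin n → ℤ) | Bad n M i.2 ∧
      height i.2 ^ τ ≤ N i.1 ∧ φ i.1 i.2 = X i.1 ω}.Finite) ∧
    ∃ B : ℝ, ∀ y : ℝ, 1 ≤ y →
      P {ω | ∃ i : J × (Fin n → ℤ), Bad n M i.2 ∧
        y ≤ height i.2 ∧ height i.2 ^ τ ≤ N i.1 ∧ φ i.1 i.2 = X i.1 ω} ≤
        ENNReal.ofReal (B * y ^ (-η)) :=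
  Pool.Agent.R909.RC.main_subtype (T := Fin n → ℤ) (H := height)
    (Q := fun x => Bad n M x)
    (fun x hx => hx.1.one_le_height hn) h0 hs hX hN (p := (d - s) * τ - η) hη (by linarith)
    (summable_bad hn hM (by linarith))

end main

/-- **Theorem.** Let `n ≥ 4`, let `N j ≥ 1` have a convergent sum of the `N j ^ (-s)`, let `X j` be
random elements of the sets `Rs j`, each value of which has probability at most `C * N j ^ (-d)`,
`s < d` (no independence is assumed), and let `φ j` be any maps from `ℤ ^ n` to `Rs j`.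

(1) Almost surely, for every `τ > 0` there is `M` such that every tuple `x` of nonzero pairwise
coprime integers with sum zero, `(max |x_i|) ^ τ ≤ N j` and `φ j x = X j` for some `j` satisfies
`max |x_i| ≤ rad (x_1 ⋯ x_n) ^ M`.

(2) If `M ≥ 10 / (3 n - 2)`, `η ≥ 0` and `(3 n - 5) / ((3 n - 2) M) + η < (d - s) τ`, then almost
surely there are only finitely many such pairs `(j, x)` with `max |x_i| > rad (x_1 ⋯ x_n) ^ M`, and
the probability that there is one with `max |x_i| ≥ y` is at most `B y ^ (-η)`. -/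
theorem result (n : ℕ) (hn : 4 ≤ n) (J Ω : Type) [MeasurableSpace Ω] (P : Measure Ω)
    (Rs : J → Type) (N : J → ℝ) (X : ∀ j : J, Ω → Rs j) (φ : ∀ j : J, (Fin n → ℤ) → Rs j)
    (s d C : ℝ) (hN : ∀ j, 1 ≤ N j) (hs : s < d) (hsum : Summable fun j => N j ^ (-s))
    (hX : ∀ j, ∀ r : Rs j, P {ω | X j ω = r} ≤ ENNReal.ofReal (C * N j ^ (-d))) :
    (∀ᵐ ω ∂P, ∀ τ : ℝ, 0 < τ → ∃ M : ℝ, ∀ (j : J) (x : Fin n → ℤ), Admissible x →
      height x ^ τ ≤ N j → φ j x = X j ω → height x ≤ (rad x : ℝ) ^ M) ∧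
    (∀ M τ η : ℝ, 10 / (3 * (n : ℝ) - 2) ≤ M → 0 ≤ η → κ n / M + η < (d - s) * τ →
      (∀ᵐ ω ∂P, {i : J × (Fin n → ℤ) | Bad n M i.2 ∧
        height i.2 ^ τ ≤ N i.1 ∧ φ i.1 i.2 = X i.1 ω}.Finite) ∧
      ∃ B : ℝ, ∀ y : ℝ, 1 ≤ y →
        P {ω | ∃ i : J × (Fin n → ℤ), Bad n M i.2 ∧
          y ≤ height i.2 ∧ height i.2 ^ τ ≤ N i.1 ∧ φ i.1 i.2 = X i.1 ω} ≤
          ENNReal.ofReal (B * y ^ (-η))) := by
  refine ⟨?_, fun M τ η hM hη h => part_two hn hN hs.le hsum hX hM hη h⟩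
  refine Pool.Agent.R909.RC.all_tau (Q := fun x : Fin n → ℤ => Admissible x)
    (G := fun M x => height x ≤ (rad x : ℝ) ^ M) (H := height)
    (fun x hx => Admissible.one_le_height hn hx) (fun x _ M M' h h1 => good_mono h1 h) ?_ ?_
  · intro S hS hadm
    obtain ⟨M, -, hM⟩ := good_finite hn hS hadm
    exact ⟨M, hM⟩
  · intro k
    have h4 : (4 : ℝ) ≤ n := by exact_mod_cast hn
    have hpos : 0 < (d - s) * (1 / ((k : ℝ) + 1)) := mul_pos (by linarith) (by positivity)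
    obtain ⟨M, hM⟩ := exists_gt (max 1 (κ n / ((d - s) * (1 / ((k : ℝ) + 1)))))
    have h1 : 1 < M := lt_of_le_of_lt (le_max_left _ _) hM
    have h2 := lt_of_le_of_lt (le_max_right _ _) hM
    refine ⟨M, ?_⟩
    have h3 : κ n / M + 0 < (d - s) * (1 / ((k : ℝ) + 1)) := by
      rw [add_zero, div_lt_iff₀ (by linarith)]
      rw [div_lt_iff₀ hpos] at h2
      linarith
    have h5 : (10 : ℝ) / (3 * (n : ℝ) - 2) ≤ M := by
      have : (10 : ℝ) / (3 * (n : ℝ) - 2) ≤ 1 := by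
        rw [div_le_one (by linarith)]
        linarith
      linarith
    exact (part_two (φ := φ) hn hN hs.le hsum hX h5 le_rfl h3).1

end Pool.Agent.Results.MP_7ecdd4_nt.RandomResidues
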